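import Pool.Agent.GW.GenSt

/-!
# Longest-component width of polygonal surfaces: `C (g + 1)^ε (area)^(1/2)` (MP_37d33d_gt)

For every `ε > 0` there is `C` such that every closed oriented surface of total genus at most `g`, glued from finitely many
polygons with real side lengths (perimeters `p_1, p_2, ...`), has a refinement of zero area which can be glued together, one
pair of sides after the other, such that at every moment all boundary components have length at most
`C * (g + 1) ^ ε * (∑ p_i ^ 2) ^ (1 / 2)`. The number of polygons does not occur in the bound, so it does not change when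
the surface is subdivided. Theorem `triangles`: a closed oriented surface of genus `g` glued from `n` unit triangles is
swept by curves all of whose components have length at most `C * (g + 1) ^ ε * n ^ (1 / 2)`.

The definitions are in `Pool/Agent/SWP/Def.lean` (`St`, `len`, `glue`, `dbl`, `sub`, `zedge`, `Ref`, `GlueAll`, `tri`),
`Pool/Agent/SWP/DefR.lean` (`cutS`, `RefR`, `SweepR`, `ncyc`, `comps`, `chi`). `∑ d, S.w d * S.len d` is the sum over all sides of (length of the side) times
(perimeter of its polygon), that is `∑ p_i ^ 2`. `2 * comps S - chi S` is twice the sum of the genera of the components.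
-/

set_option autoImplicit false

namespace Pool.Agent.Results.MP_37d33d_gt.GenusEps

open Pool.Agent.SWP Pool.Agent.GW

/-- the case of `n` unit triangles -/
theorem triangles (ε : ℝ) (h0 : 0 < ε) : ∃ C : ℝ, 0 < C ∧ ∀ (n g : ℕ) (α : Equiv.Perm (Fin n × ZMod 3))
    (h : ∀ d, α (α d) = d) (h' : ∀ d, α d ≠ d),
      2 * (comps (tri n α h h') : ℤ) - chi (tri n α h h') ≤ 2 * g →
      SweepR (C * ((g : ℝ) + 1) ^ ε * Real.sqrt n) (tri n α h h') :=
  genus_triangles ε h0

theorem result : ∀ ε : ℝ, 0 < ε → ∃ C : ℝ, 0 < C ∧ ∀ (S : St) (g : ℕ), (∀ d, S.a d ≠ d) →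
    2 * (comps S : ℤ) - chi S ≤ 2 * g →
      SweepR (C * ((g : ℝ) + 1) ^ ε * Real.sqrt (∑ d, S.w d * S.len d)) S :=
  genus_final

end Pool.Agent.Results.MP_37d33d_gt.GenusEps
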