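import Pool.Agent.DSW.Main

/-!
# Power saving for the sweeps of all triangulated surfaces (MP_37d33d_gt)

`r` is a permutation of the `N` sides of finitely many polygons, `r x` is the next side of the same polygon, every
polygon has at most `d` sides; `a` is a fixed point free involution, side `x` is glued to side `a x` (reversing the
orientation), so that a closed oriented surface arises.  Then the pairs can be glued one after the other, in the order
given by `t`, such that at every moment (the pairs with `t < s` are glued) every boundary component consists of at most
`C * N ^ (19 / 20)` sides, where `C` depends on `d` only.  The boundary component of `x` is the orbit of `x` under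
`z ↦ r (a z)` for glued and `z ↦ r z` for open sides, its length is the number of open sides on it.
-/

set_option autoImplicit false

namespace Pool.Agent.Results.MP_37d33d_gt.PowerSaving

open Equiv Finset

open Classical in
theorem result (d : ℕ) : ∃ C : ℝ, ∀ (N : ℕ) (r a : Perm (Fin N)), (∀ x, a (a x) = x) → (∀ x, a x ≠ x) →
    (∀ x, (univ.filter fun y => r.SameCycle x y).card ≤ d) →
    ∃ t : Fin N → ℕ, (∀ x, t (a x) = t x) ∧ (∀ x y, t x = t y → y = x ∨ y = a x) ∧
      ∀ (s : ℕ) (x : Fin N), ((univ.filter fun y => s ≤ t y ∧
        ∃ k : ℕ, (fun z => r (if t z < s then a z else z))^[k] x = y).card : ℝ) ≤ C * (N : ℝ) ^ (19 / 20 : ℝ) :=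
  Pool.Agent.DSW.main d

end Pool.Agent.Results.MP_37d33d_gt.PowerSaving
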