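import Pool.Agent.RSW.Main

/-!
# Sweeps of random surfaces (MP_37d33d_gt)

There is a constant `C` such that for every collection of polygons with `2 n` sides in total, each with at most
`√n log n` sides, all but a fraction `1/n` of the perfect matchings of the `2 n` sides (gluings to a closed oriented
surface) can be swept: the sides can be glued pair after pair such that at every moment each boundary component
consists of at most `C √n log n` sides.  The definitions (`glue`, `face`, `Sweep`, `PM`) are in
`Pool/Agent/RSW/Def.lean`.
-/

set_option autoImplicit false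

namespace Pool.Agent.Results.MP_37d33d_gt.RandomSurfaces

open Pool.Agent.RSW Equiv Finset

open Classical in
theorem result : ∃ C : ℝ, ∀ n : ℕ, 2 ≤ n → ∀ r : Perm (Fin (2 * n)),
    (∀ x, ((face r univ x).card : ℝ) ≤ √(n : ℝ) * Real.log n) →
      (n : ℝ) * (((PM univ).filter fun M =>
        ¬ Sweep ⌊C * (√(n : ℝ) * Real.log n)⌋₊ r univ M).card : ℝ) ≤
        ((PM (univ : Finset (Fin (2 * n)))).card : ℝ) :=
  random_surfaces

end Pool.Agent.Results.MP_37d33d_gt.RandomSurfaces
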