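import Pool.Agent.SWP.Fin

/-!
# Sublinear sweeps of polygonal surfaces (MP_37d33d_gt)

For every `ε > 0` there is `δ > 0` such that every closed oriented surface glued from finitely many polygons (real side
lengths, total perimeter `W`, each polygon of perimeter at most `δ * W`) has a refinement of zero area which can be glued
together, one pair of sides after the other, such that at every moment all boundary components have length at most
`ε * W`. In particular (theorem `triangles` below) a closed oriented surface glued from `n ≥ N(ε)` unit triangles can be
swept by curves all of whose components have length at most `ε * n`.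
The definitions are in `Pool/Agent/SWP/Def.lean`.
-/

set_option autoImplicit false

namespace Pool.Agent.Results.MP_37d33d_gt.SublinearSweeps

open Pool.Agent.SWP

/-- the case of unit triangles -/
theorem triangles (ε : ℝ) (h0 : 0 < ε) : ∃ N : ℕ, ∀ n : ℕ, N ≤ n → ∀ (α : Equiv.Perm (Fin n × ZMod 3))
    (h : ∀ d, α (α d) = d) (h' : ∀ d, α d ≠ d), Sweep (ε * n) (tri n α h h') :=
  sublinear_triangles ε h0

theorem result : ∀ ε : ℝ, 0 < ε → ∃ δ : ℝ, 0 < δ ∧ ∀ S : St, (∀ d, S.a d ≠ d) →
    (∀ d, S.len d ≤ δ * S.total) → Sweep (ε * S.total) S :=
  fun ε h0 => sublinear_polygons ε h0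

end Pool.Agent.Results.MP_37d33d_gt.SublinearSweeps
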